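import Pool.Agent.Lib.MP_38b438_an.N5.Data

set_option autoImplicit false

/-!
# Kernel checks of the certificate
-/

namespace Pool.Agent.Lib.MP_38b438_an.N5

/-- integers as elements of the cubic ring -/
def zl (l : List ℤ) : List K3 := l.map fun r => (r, 0, 0)

def sigma (gs : List K3) : List K3 := combo [0, 1] [2] [0, 1] gs

def sigma2 (gs : List K3) : List K3 := combo [-2, 0, 1] [2] [-2, 0, 1] gs

/-- `4 (β - f - ψ + ψ ∘ T) = Rz² h` as polynomials in `2 cos θ`. -/
theorem check_main :
    keq (kpz 4 (kpadd (kpadd (sigma bs) (kpz (-1) (sigma fs)))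
      (kpadd (kpz (-1) (sigma cs)) (sigma2 cs))))
      (kpmul (kpmul Rz Rz) (sigma hs)) = true := by
  decide +kernel

/-- The sum of squares. -/
theorem check_sos :
    keq (sigma (zl rs)) (kpadd (kpmul (sigma (zl As)) (sigma (zl As)))
      (kpmul [(4, 0, 0), (0, 0, 0), (-1, 0, 0)]
        (kpmul (combo [0, 1] [1] [] (zl Bs)) (combo [0, 1] [1] [] (zl Bs))))) = true := by
  decide +kernel

def Q : ℤ := 100000000000000000000

def E0 : ℤ := 61507162581156506493

/-- `Q²` times the approximate value. -/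
def approx (u : K3) : ℤ := u.1 * Q ^ 2 + u.2.1 * E0 * Q + u.2.2 * E0 ^ 2

/-- `Q²` times the error bound. -/
def slop (u : K3) : ℤ := (|u.2.1| + 2 * |u.2.2|) * Q

def errsum : List K3 → ℤ
  | [] => 0
  | u :: l => |approx u| + slop u + errsum l

def ds : List K3 := kpadd (kpz 4 hs) (kpz (-1) (zl rs))

theorem check_bound :
    errsum ds.tail + slop (ds.headD (0, 0, 0)) < approx (ds.headD (0, 0, 0)) := by
  decide +kernel

theorem check_lo : 0 < E0 ^ 3 + E0 ^ 2 * Q - 14 * E0 * Q ^ 2 + 8 * Q ^ 3 := by decide +kernel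

theorem check_hi :
    (E0 + 1) ^ 3 + (E0 + 1) ^ 2 * Q - 14 * (E0 + 1) * Q ^ 2 + 8 * Q ^ 3 < 0 := by decide +kernel

/-- indicator of the orbit of `3 / 43` -/
def E : List ℤ := (List.range 43).map fun r =>
  if r ∈ [3, 5, 6, 10, 12, 19, 20, 23, 24, 31, 33, 37, 38, 40] then 1 else 0

def E2 : List ℤ := fold 3 (pmul E E)

theorem check_eta :
    zchk (padd (padd (fold 3 (pmul E E2)) E2) (padd (psmul (-14) E) [8])) = true := by
  decide +kernel

/-- The product of the seven factors `t - x ^ j - x ^ (43 - j)`. -/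
def Pz : List (List ℤ) :=
  stepP 3 (stepP 5 (stepP 6 (stepP 10 (stepP 12 (stepP 19 (stepP 20 [[1]]))))))

/-- an element of the cubic ring as a polynomial in `x` -/
def lst (u : K3) : List ℤ := padd (padd [u.1] (psmul u.2.1 E)) (psmul u.2.2 E2)

def chkR : List (List ℤ) → List K3 → Bool
  | [], [] => true
  | p :: P, u :: U => zchk (psub (psmul 2 p) (lst u)) && chkR P U
  | [], _ :: _ => false
  | _ :: _, [] => false

theorem check_R : chkR Pz Rz = true := by decide +kernel

end Pool.Agent.Lib.MP_38b438_an.N5
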