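import Mathlib

set_option autoImplicit false

/-!
# Doubling map, maximizing measures, odd trigonometric polynomials and flowers: definitions
-/

namespace Pool.Agent.Lib.MP_38b438_an.N5

open MeasureTheory

/-- The doubling map `x ↦ 2x` of the circle `ℝ / ℤ`. -/
def dbl (x : UnitAddCircle) : UnitAddCircle := x + x

/-- `μ` is a Borel probability measure on the circle that is invariant under the doubling map. -/
def IsInvariantProb (μ : Measure UnitAddCircle) : Prop :=
  IsProbabilityMeasure μ ∧ μ.map dbl = μ

/-- `μ` is a maximizing measure for `f`: it is an invariant probability measure and its integral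
of `f` is the largest among all invariant probability measures. -/
def IsMaximizing (f : UnitAddCircle → ℝ) (μ : Measure UnitAddCircle) : Prop :=
  IsInvariantProb μ ∧ ∀ ν : Measure UnitAddCircle, IsInvariantProb ν → ∫ x, f x ∂ν ≤ ∫ x, f x ∂μ

/-- The set `V n` of real trigonometric polynomials
`∑ (a k cos (2 π k x) + b k sin (2 π k x))`, `k` odd, `k ≤ n`, not all coefficients zero. -/
def oddTrig (n : ℕ) : Set (UnitAddCircle → ℝ) :=
  {f | ∃ a b : ℕ → ℝ, (∃ k, Odd k ∧ k ≤ n ∧ (a k ≠ 0 ∨ b k ≠ 0)) ∧
    ∀ x : ℝ, f (x : UnitAddCircle) = ∑ k ∈ (Finset.range (n + 1)).filter Odd,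
      (a k * Real.cos (2 * Real.pi * k * x) + b k * Real.sin (2 * Real.pi * k * x))}

/-- A closed non-degenerate arc of the circle: the image of an interval `[a, b]` with `a < b`. -/
def IsArc (I : Set UnitAddCircle) : Prop :=
  ∃ a b : ℝ, a < b ∧ I = (fun t : ℝ => (t : UnitAddCircle)) '' Set.Icc a b

/-- The translate `X + 1/2`. -/
def halfShift (X : Set UnitAddCircle) : Set UnitAddCircle :=
  (fun x : UnitAddCircle => x + ((1 / 2 : ℝ) : UnitAddCircle)) '' X

/-- A flower: a finite union `X` of closed non-degenerate arcs with `X ∪ (X + 1/2)` the whole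
circle and `X ∩ (X + 1/2)` the boundary of `X`. -/
def IsFlower (X : Set UnitAddCircle) : Prop :=
  (∃ F : Set (Set UnitAddCircle), F.Finite ∧ (∀ I ∈ F, IsArc I) ∧ X = ⋃₀ F) ∧
    X ∪ halfShift X = Set.univ ∧ X ∩ halfShift X = frontier X

/-- The number of petals of `X`, i.e. the number of its connected components. -/
noncomputable def petals (X : Set UnitAddCircle) : ℕ∞ :=
  Set.encard {C | ∃ x ∈ X, C = connectedComponentIn X x}

end Pool.Agent.Lib.MP_38b438_an.N5
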