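import Pool.Agent.Lib.MP_38b438_an.N5.Ineq
import Pool.Agent.Lib.MP_38b438_an.N5.Defs

set_option autoImplicit false

/-!
# The functions on the circle
-/

namespace Pool.Agent.Lib.MP_38b438_an.N5

open Real

noncomputable def ccos (k : ℤ) (x : UnitAddCircle) : ℝ := (fourier k x).re

lemma ccos_coe (k : ℤ) (y : ℝ) : ccos k (y : UnitAddCircle) = cos (2 * π * k * y) := by
  rw [ccos, fourier_coe_apply]
  have : (2 * (π : ℂ) * Complex.I * k * y / (1 : ℝ)) = ((2 * π * k * y : ℝ) : ℂ) * Complex.I := by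
    push_cast; ring
  rw [this, Complex.exp_ofReal_mul_I_re]

lemma continuous_ccos (k : ℤ) : Continuous (ccos k) :=
  Complex.continuous_re.comp (fourier k).continuous

noncomputable def csum : ℕ → List K3 → UnitAddCircle → ℝ
  | _, [], _ => 0
  | k, g :: gs, x => kev eta g * (2 * ccos k x) + csum (k + 1) gs x

lemma csum_coe (k : ℕ) (gs : List K3) (y : ℝ) :
    csum k gs (y : UnitAddCircle) = tsum eta (2 * π * k * y) (2 * π * y) gs := by
  induction gs generalizing k with
  | nil => rfl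
  | cons g gs ih =>
    rw [csum, tsum, ih, ccos_coe]
    push_cast
    have : 2 * π * ((k : ℝ) + 1) * y = 2 * π * k * y + 2 * π * y := by ring
    rw [this]

lemma continuous_csum (k : ℕ) (gs : List K3) : Continuous (csum k gs) := by
  induction gs generalizing k with
  | nil => exact continuous_const
  | cons g gs ih =>
    have h1 := continuous_ccos k
    have h2 := ih (k + 1)
    show Continuous fun x => kev eta g * (2 * ccos k x) + csum (k + 1) gs x
    fun_prop

/-- The function `f`. -/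
noncomputable def F : UnitAddCircle → ℝ := csum 0 fs

/-- The sub-action. -/
noncomputable def Psi : UnitAddCircle → ℝ := csum 0 cs

/-- The maximum ergodic average. -/
noncomputable def B : ℝ := tsum eta 0 0 bs

/-- The seven fold product. -/
noncomputable def Rr (t : ℝ) : ℝ := 2 * ((t - tj 3) * ((t - tj 5) * ((t - tj 6) *
    ((t - tj 10) * ((t - tj 12) * ((t - tj 19) * (t - tj 20)))))))

/-- The deficit. -/
noncomputable def gC (x : UnitAddCircle) : ℝ :=
  Rr (2 * ccos 1 x) ^ 2 * csum 0 hs x / 4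

lemma continuous_dbl : Continuous dbl := by unfold dbl; fun_prop

lemma continuous_F : Continuous F := continuous_csum 0 fs
lemma continuous_Psi : Continuous Psi := continuous_csum 0 cs

lemma continuous_gC : Continuous gC := by
  have h1 := continuous_ccos 1
  have h2 := continuous_csum 0 hs
  unfold gC Rr
  fun_prop

lemma exists_coe (x : UnitAddCircle) : ∃ y : ℝ, (y : UnitAddCircle) = x := by
  obtain ⟨y, _, h⟩ := AddCircle.eq_coe_Ico x
  exact ⟨y, h⟩

lemma tsum_bs (θ : ℝ) : tsum eta 0 θ bs = B := by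
  rw [B, bs]; simp [tsum]

lemma deficit (x : UnitAddCircle) : B - F x - Psi x + Psi (dbl x) = gC x := by
  obtain ⟨y, rfl⟩ := exists_coe x
  have h := main_identity (2 * π * y)
  rw [tsum_bs] at h
  have hd : dbl (y : UnitAddCircle) = ((2 * y : ℝ) : UnitAddCircle) := by
    rw [dbl, two_mul, AddCircle.coe_add]
  have e0 : ∀ z : ℝ, 2 * π * ((0 : ℕ) : ℝ) * z = 0 := by intro z; simp
  have e1 : 2 * π * (2 * y) = 2 * (2 * π * y) := by ring
  rw [F, Psi, gC, hd, csum_coe, csum_coe, csum_coe, csum_coe, e0, e0, e1, ccos_coe]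
  have e2 : 2 * π * ((1 : ℤ) : ℝ) * y = 2 * π * y := by push_cast; ring
  rw [e2]
  rw [show kpev eta (2 * cos (2 * π * y)) Rz = Rr (2 * cos (2 * π * y)) from R_eq _] at h
  generalize Rr (2 * cos (2 * π * y)) = r at h ⊢
  linear_combination h / 4

lemma csum_hs_pos (x : UnitAddCircle) : 0 < csum 0 hs x := by
  obtain ⟨y, rfl⟩ := exists_coe x
  rw [csum_coe]
  have e0 : 2 * π * ((0 : ℕ) : ℝ) * y = 0 := by simp
  rw [e0]
  exact tsum_hs_pos _

lemma gC_nonneg (x : UnitAddCircle) : 0 ≤ gC x := by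
  have h1 := csum_hs_pos x
  unfold gC
  positivity

/-- The point `r / 43`. -/
noncomputable def pt (r : ℕ) : UnitAddCircle := (((r : ℝ) / 43 : ℝ) : UnitAddCircle)

/-- The index set of the orbit. -/
def Kidx : Finset ℕ := {3, 5, 6, 10, 12, 19, 20, 23, 24, 31, 33, 37, 38, 40}

lemma pt_add (r : ℕ) : pt (r + 43) = pt r := by
  have : (((r + 43 : ℕ) : ℝ) / 43 : ℝ) = (r : ℝ) / 43 + 1 := by push_cast; ring
  rw [pt, pt, this]
  exact AddCircle.coe_add_period (1 : ℝ) _

lemma pt_mod (r : ℕ) : pt (r % 43) = pt r := by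
  have h : ∀ k s : ℕ, pt (s + 43 * k) = pt s := by
    intro k
    induction k with
    | zero => intro s; rfl
    | succ k ih =>
      intro s
      rw [Nat.mul_succ, ← add_assoc, pt_add, ih]
  conv_rhs => rw [← Nat.mod_add_div r 43]
  rw [h]

lemma dbl_pt (r : ℕ) : dbl (pt r) = pt (2 * r % 43) := by
  rw [pt_mod, dbl, pt, pt, ← AddCircle.coe_add]
  congr 1
  push_cast
  ring

lemma pt_injOn {r s : ℕ} (hr : r < 43) (hs : s < 43) (h : pt r = pt s) : r = s := by
  have h1 := (AddCircle.coe_eq_coe_iff_of_mem_Ico (p := (1 : ℝ)) (a := 0)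
    (x := (r : ℝ) / 43) (y := (s : ℝ) / 43)
    ⟨by positivity, by
      have : (r : ℝ) < 43 := by exact_mod_cast hr
      rw [zero_add, div_lt_one (by norm_num)]; exact this⟩
    ⟨by positivity, by
      have : (s : ℝ) < 43 := by exact_mod_cast hs
      rw [zero_add, div_lt_one (by norm_num)]; exact this⟩).mp h
  have h2 : (r : ℝ) = s := by
    field_simp at h1
    exact h1
  exact_mod_cast h2

lemma ccos_pt (r : ℕ) : 2 * ccos 1 (pt r) = tj r := by
  rw [pt, ccos_coe, tj]
  congr 2
  push_cast; ring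

lemma tj_symm {j : ℕ} (hj : j ≤ 43) : tj (43 - j) = tj j := by
  rw [tj, tj]
  have : 2 * π * ((43 - j : ℕ) : ℝ) / 43 = 2 * π - 2 * π * j / 43 := by
    rw [Nat.cast_sub hj]; push_cast; ring
  rw [this, Real.cos_two_pi_sub]

lemma gC_pt {r : ℕ} (hr : r ∈ Kidx) : gC (pt r) = 0 := by
  have h : Rr (tj r) = 0 := by
    have e23 : tj 23 = tj 20 := tj_symm (j := 20) (by norm_num)
    have e24 : tj 24 = tj 19 := tj_symm (j := 19) (by norm_num)
    have e31 : tj 31 = tj 12 := tj_symm (j := 12) (by norm_num)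
    have e33 : tj 33 = tj 10 := tj_symm (j := 10) (by norm_num)
    have e37 : tj 37 = tj 6 := tj_symm (j := 6) (by norm_num)
    have e38 : tj 38 = tj 5 := tj_symm (j := 5) (by norm_num)
    have e40 : tj 40 = tj 3 := tj_symm (j := 3) (by norm_num)
    simp only [Kidx, Finset.mem_insert, Finset.mem_singleton] at hr
    rcases hr with rfl | rfl | rfl | rfl | rfl | rfl | rfl | rfl | rfl | rfl | rfl | rfl | rfl | rfl
    all_goals simp [Rr, e23, e24, e31, e33, e37, e38, e40]
  rw [gC, ccos_pt, h]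
  simp

lemma coe_of_cos_eq {y : ℝ} {j : ℕ} (hj : j ≤ 43) (h : 2 * cos (2 * π * y) = tj j) :
    (y : UnitAddCircle) = pt j ∨ (y : UnitAddCircle) = pt (43 - j) := by
  rw [tj] at h
  have h1 : cos (2 * π * y) = cos (2 * π * j / 43) := by linarith
  rw [Real.cos_eq_cos_iff] at h1
  have hpi := Real.pi_pos.ne'
  obtain ⟨k, hk | hk⟩ := h1
  · left
    have h2 : (j : ℝ) / 43 = y + k := by
      have : 2 * π * ((j : ℝ) / 43) = 2 * π * (y + k) := by linarith
      exact mul_left_cancel₀ (by positivity) this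
    rw [pt, h2, AddCircle.coe_add]
    have : ((k : ℝ) : UnitAddCircle) = 0 := by
      rw [AddCircle.coe_eq_zero_iff]
      exact ⟨k, by simp⟩
    rw [this, add_zero]
  · right
    have h2 : ((43 - j : ℕ) : ℝ) / 43 = y + ((1 - k : ℤ) : ℝ) := by
      rw [Nat.cast_sub hj]
      push_cast
      have : 2 * π * ((j : ℝ) / 43) = 2 * π * (k - y) := by linarith
      have h3 := mul_left_cancel₀ (by positivity) this
      linarith
    rw [pt, h2, AddCircle.coe_add]
    have : (((1 - k : ℤ) : ℝ) : UnitAddCircle) = 0 := by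
      rw [AddCircle.coe_eq_zero_iff]
      exact ⟨1 - k, by simp⟩
    rw [this, add_zero]

lemma mem_of_gC_eq_zero {x : UnitAddCircle} (h : gC x = 0) : ∃ r ∈ Kidx, x = pt r := by
  have hpos := csum_hs_pos x
  have hR : Rr (2 * ccos 1 x) = 0 := by
    by_contra hne
    have : 0 < gC x := by
      unfold gC
      have := sq_pos_of_ne_zero hne
      positivity
    linarith
  obtain ⟨y, rfl⟩ := exists_coe x
  have e2 : 2 * π * ((1 : ℤ) : ℝ) * y = 2 * π * y := by push_cast; ring
  rw [ccos_coe, e2] at hR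
  unfold Rr at hR
  have key : ∀ j : ℕ, j ≤ 43 → j ∈ Kidx → 43 - j ∈ Kidx → 2 * cos (2 * π * y) - tj j = 0 →
      ∃ r ∈ Kidx, (y : UnitAddCircle) = pt r := by
    intro j hj h1 h2 h3
    rcases coe_of_cos_eq hj (sub_eq_zero.mp h3) with h4 | h4
    · exact ⟨j, h1, h4⟩
    · exact ⟨43 - j, h2, h4⟩
  rcases mul_eq_zero.mp hR with h0 | h0
  · norm_num at h0
  rcases mul_eq_zero.mp h0 with h1 | h1
  · exact key 3 (by norm_num) (by decide) (by decide) h1
  rcases mul_eq_zero.mp h1 with h1 | h1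
  · exact key 5 (by norm_num) (by decide) (by decide) h1
  rcases mul_eq_zero.mp h1 with h1 | h1
  · exact key 6 (by norm_num) (by decide) (by decide) h1
  rcases mul_eq_zero.mp h1 with h1 | h1
  · exact key 10 (by norm_num) (by decide) (by decide) h1
  rcases mul_eq_zero.mp h1 with h1 | h1
  · exact key 12 (by norm_num) (by decide) (by decide) h1
  rcases mul_eq_zero.mp h1 with h1 | h1
  · exact key 19 (by norm_num) (by decide) (by decide) h1
  · exact key 20 (by norm_num) (by decide) (by decide) h1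

lemma eta_pos : 0 < eta := by
  have h := eta_lo
  rw [Q_real, E0_real] at h
  by_contra hcon
  rw [not_lt] at hcon
  nlinarith

lemma tsum_six (θ : ℝ) (u v w : K3) :
    tsum eta 0 θ [(0, 0, 0), u, (0, 0, 0), v, (0, 0, 0), w]
      = 2 * kev eta u * cos θ + (2 * kev eta v * cos (3 * θ) + 2 * kev eta w * cos (5 * θ)) := by
  have h0 : kev eta ((0, 0, 0) : K3) = 0 := by simp [kev]
  simp only [tsum, h0]
  have e1 : 0 + θ = θ := by ring
  have e2 : θ + θ + θ = 3 * θ := by ring
  have e3 : 3 * θ + θ + θ = 5 * θ := by ring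
  rw [e1, e2, e3]
  ring

lemma fs_eq : ∃ u v w : K3, fs = [(0, 0, 0), u, (0, 0, 0), v, (0, 0, 0), w] ∧
    w.1 < 0 ∧ w.2.1 < 0 ∧ w.2.2 < 0 := by
  refine ⟨_, _, _, rfl, ?_, ?_, ?_⟩ <;> decide +kernel

lemma F_mem : F ∈ oddTrig 5 := by
  obtain ⟨u, v, w, hfs, hw1, hw2, hw3⟩ := fs_eq
  refine ⟨fun k => if k = 1 then 2 * kev eta u else
    if k = 3 then 2 * kev eta v else 2 * kev eta w,
    fun _ => 0, ⟨5, by decide, le_rfl, ?_⟩, ?_⟩
  · left
    have he := eta_pos
    have : kev eta w < 0 := by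
      have h1 : (w.1 : ℝ) < 0 := by exact_mod_cast hw1
      have h2 : (w.2.1 : ℝ) < 0 := by exact_mod_cast hw2
      have h3 : (w.2.2 : ℝ) < 0 := by exact_mod_cast hw3
      have h4 : (w.2.1 : ℝ) * eta < 0 := mul_neg_of_neg_of_pos h2 he
      have h5 : (w.2.2 : ℝ) * eta ^ 2 < 0 := mul_neg_of_neg_of_pos h3 (by positivity)
      rw [kev]
      linarith
    simp only [if_neg (show (5 : ℕ) ≠ 1 by norm_num), if_neg (show (5 : ℕ) ≠ 3 by norm_num)]
    intro h
    linarith
  · intro y
    have hf : (Finset.range (5 + 1)).filter Odd = {1, 3, 5} := by decide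
    rw [hf, F, csum_coe]
    have e0 : 2 * π * ((0 : ℕ) : ℝ) * y = 0 := by simp
    rw [e0, hfs, tsum_six]
    rw [Finset.sum_insert (by decide), Finset.sum_insert (by decide), Finset.sum_singleton]
    have e1 : 2 * π * ((1 : ℕ) : ℝ) * y = 2 * π * y := by push_cast; ring
    have e2 : 2 * π * ((3 : ℕ) : ℝ) * y = 3 * (2 * π * y) := by push_cast; ring
    have e3 : 2 * π * ((5 : ℕ) : ℝ) * y = 5 * (2 * π * y) := by push_cast; ring
    rw [e1, e2, e3]
    simp only [if_true, if_neg (show (3 : ℕ) ≠ 1 by norm_num), if_neg (show (5 : ℕ) ≠ 1 by norm_num),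
      if_neg (show (5 : ℕ) ≠ 3 by norm_num), zero_mul, add_zero]

end Pool.Agent.Lib.MP_38b438_an.N5
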