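import Pool.Agent.Lib.MP_38b438_an.N5.Defs

set_option autoImplicit false

/-!
# A lower bound for the number of petals
-/

namespace Pool.Agent.Lib.MP_38b438_an.N5

open Set Topology

lemma isOpen_image_coe {U : Set ℝ} (hU : IsOpen U) :
    IsOpen ((fun t : ℝ => (t : UnitAddCircle)) '' U) :=
  QuotientAddGroup.isOpenMap_coe U hU

/-- A connected set containing two points contains one of the two open arcs between them. -/
lemma arc_subset {C : Set UnitAddCircle} (hC : IsPreconnected C) {a b : ℝ}
    (ha : (a : UnitAddCircle) ∈ C) (hb : (b : UnitAddCircle) ∈ C) :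
    (∀ c ∈ Ioo a b, (c : UnitAddCircle) ∈ C) ∨ (∀ d ∈ Ioo b (a + 1), (d : UnitAddCircle) ∈ C) := by
  by_contra hcon
  push Not at hcon
  obtain ⟨⟨c, hc, hcC⟩, ⟨d, hd, hdC⟩⟩ := hcon
  have hcd : c < d := hc.2.trans hd.1
  have hdc : d < c + 1 := by linarith [hd.2, hc.1]
  have hU := isOpen_image_coe (isOpen_Ioo (a := c) (b := d))
  have hV := isOpen_image_coe (isOpen_Ioo (a := d) (b := c + 1))
  have hcover : C ⊆ (fun t : ℝ => (t : UnitAddCircle)) '' Ioo c d ∪
      (fun t : ℝ => (t : UnitAddCircle)) '' Ioo d (c + 1) := by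
    intro z hz
    have hz' : z ∈ ((↑) : ℝ → UnitAddCircle) '' Ico c (c + 1) := by
      have := AddCircle.coe_image_Ico_eq (1 : ℝ) c
      rw [this]; trivial
    obtain ⟨w, hw, rfl⟩ := hz'
    have hwc : w ≠ c := by rintro rfl; exact hcC hz
    have hwd : w ≠ d := by rintro rfl; exact hdC hz
    rcases lt_or_gt_of_ne hwd with h | h
    · left; exact ⟨w, ⟨lt_of_le_of_ne hw.1 (Ne.symm hwc), h⟩, rfl⟩
    · right; exact ⟨w, ⟨h, hw.2⟩, rfl⟩
  have h1 : (C ∩ (fun t : ℝ => (t : UnitAddCircle)) '' Ioo c d).Nonempty :=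
    ⟨b, hb, b, ⟨hc.2, hd.1⟩, rfl⟩
  have h2 : (C ∩ (fun t : ℝ => (t : UnitAddCircle)) '' Ioo d (c + 1)).Nonempty := by
    refine ⟨a, ha, a + 1, ⟨hd.2, by linarith [hc.1]⟩, ?_⟩
    exact AddCircle.coe_add_period (1 : ℝ) a
  obtain ⟨z, _, ⟨u, hu, huz⟩, ⟨v, hv, hvz⟩⟩ := hC _ _ hU hV hcover h1 h2
  have huv : (u : UnitAddCircle) = (v : UnitAddCircle) := huz.trans hvz.symm
  have := (AddCircle.coe_eq_coe_iff_of_mem_Ico (p := (1 : ℝ)) (a := c)
    ⟨hu.1.le, hu.2.trans hdc⟩ ⟨(hcd.trans hv.1).le, hv.2⟩).mp huv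
  linarith [hu.2, hv.1]

/-- Points separated by points of `X + 1/2` on both sides lie in different components. -/
lemma component_ne {X : Set UnitAddCircle} (hX : IsFlower X) {a p b q : ℝ} (hap : a < p)
    (hpb : p < b) (hbq : b < q) (hqa : q < a + 1) (hb : (b : UnitAddCircle) ∈ X)
    (hp : (p : UnitAddCircle) ∈ halfShift X) (hq : (q : UnitAddCircle) ∈ halfShift X) :
    connectedComponentIn X (a : UnitAddCircle) ≠ connectedComponentIn X (b : UnitAddCircle) := by
  intro heq
  set C := connectedComponentIn X (b : UnitAddCircle) with hCdef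
  have hbC : (b : UnitAddCircle) ∈ C := mem_connectedComponentIn hb
  have haX : (a : UnitAddCircle) ∈ X := by
    by_contra h
    rw [connectedComponentIn_eq_empty h] at heq
    rw [← heq] at hbC
    exact hbC
  have haC : (a : UnitAddCircle) ∈ C := by
    rw [← heq]; exact mem_connectedComponentIn haX
  have hCX : C ⊆ X := connectedComponentIn_subset X _
  have hCpre : IsPreconnected C := isPreconnected_connectedComponentIn
  have key : ∀ {c r d : ℝ}, c < r → r < d → (∀ s ∈ Ioo c d, (s : UnitAddCircle) ∈ C) →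
      (r : UnitAddCircle) ∈ halfShift X → False := by
    intro c r d hcr hrd hs hr
    have hopen := isOpen_image_coe (isOpen_Ioo (a := c) (b := d))
    have hsub : (fun t : ℝ => (t : UnitAddCircle)) '' Ioo c d ⊆ X := by
      rintro _ ⟨s, hs', rfl⟩
      exact hCX (hs s hs')
    have hint : (r : UnitAddCircle) ∈ interior X :=
      interior_maximal hsub hopen ⟨r, ⟨hcr, hrd⟩, rfl⟩
    have hfr : (r : UnitAddCircle) ∈ frontier X := by
      rw [← hX.2.2]
      exact ⟨interior_subset hint, hr⟩
    exact hfr.2 hint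
  rcases arc_subset hCpre haC hbC with h | h
  · exact key hap hpb h hp
  · exact key hbq hqa h hq

/-- Numerators (over 86) of seven points of the orbit. -/
def num : Fin 7 → ℕ := ![6, 20, 24, 38, 62, 66, 74]

/-- Numerators (over 86) of seven separating points. -/
def sep : Fin 7 → ℕ := ![19, 23, 31, 49, 63, 67, 81]

lemma num_sep : ∀ i j : Fin 7, i < j →
    num i < sep i ∧ sep i < num j ∧ num j < sep j ∧ sep j < num i + 86 := by decide

/-- If a flower contains the seven points and their half translates are the separating points,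
then it has at least seven petals. -/
theorem seven_le_petals {X : Set UnitAddCircle} (hX : IsFlower X)
    (h1 : ∀ i, (((num i : ℝ) / 86 : ℝ) : UnitAddCircle) ∈ X)
    (h2 : ∀ i, (((sep i : ℝ) / 86 : ℝ) : UnitAddCircle) ∈ halfShift X) : 7 ≤ petals X := by
  set φ : Fin 7 → Set UnitAddCircle :=
    fun i => connectedComponentIn X (((num i : ℝ) / 86 : ℝ) : UnitAddCircle) with hφ
  have hne : ∀ i j : Fin 7, i < j → φ i ≠ φ j := by
    intro i j hij
    obtain ⟨a1, a2, a3, a4⟩ := num_sep i j hij
    have a1' : (num i : ℝ) < sep i := by exact_mod_cast a1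
    have a2' : (sep i : ℝ) < num j := by exact_mod_cast a2
    have a3' : (num j : ℝ) < sep j := by exact_mod_cast a3
    have a4' : (sep j : ℝ) < num i + 86 := by exact_mod_cast a4
    exact component_ne hX (a := (num i : ℝ) / 86) (p := (sep i : ℝ) / 86)
      (b := (num j : ℝ) / 86) (q := (sep j : ℝ) / 86) (by linarith) (by linarith) (by linarith)
      (by linarith) (h1 j) (h2 i) (h2 j)
  have hinj : Function.Injective φ := by
    intro i j hij
    by_contra h
    rcases lt_or_gt_of_ne h with h' | h'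
    · exact hne i j h' hij
    · exact hne j i h' hij.symm
  have hsub : Set.range φ ⊆ {C | ∃ x ∈ X, C = connectedComponentIn X x} := by
    rintro _ ⟨i, rfl⟩
    exact ⟨_, h1 i, rfl⟩
  have hcard : (Set.range φ).encard = 7 := by
    rw [← Set.image_univ, hinj.encard_image, Set.encard_univ]
    simp
  rw [petals, ← hcard]
  exact Set.encard_le_encard hsub

end Pool.Agent.Lib.MP_38b438_an.N5
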