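import Pool.Agent.Lib.MP_38b438_an.N5.Check

set_option autoImplicit false

/-!
# The cubic period and the degree seven factor
-/

namespace Pool.Agent.Lib.MP_38b438_an.N5

open Complex

section

variable {A : Type*} [CommRing A]

lemma ev_E (x : A) : ev x E = x ^ 3 + x ^ 5 + x ^ 6 + x ^ 10 + x ^ 12 + x ^ 19 + x ^ 20
    + x ^ 23 + x ^ 24 + x ^ 31 + x ^ 33 + x ^ 37 + x ^ 38 + x ^ 40 := by
  have h : E = [0, 0, 0, 1, 0, 1, 1, 0, 0, 0, 1, 0, 1, 0, 0, 0, 0, 0, 0, 1, 1, 0, 0, 1, 1, 0, 0,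
    0, 0, 0, 0, 1, 0, 1, 0, 0, 0, 1, 1, 0, 1, 0, 0] := by decide +kernel
  rw [h]
  simp only [ev]
  push_cast
  ring

lemma ev_E2 {x : A} (hx : x ^ 43 = 1) : ev x E2 = ev x E ^ 2 := by
  rw [E2, ev_fold hx, ev_pmul, sq]

lemma eta_cubic [IsDomain A] {x : A} (hx : x ^ 43 = 1) (hx1 : x ≠ 1) :
    ev x E ^ 3 + ev x E ^ 2 - 14 * ev x E + 8 = 0 := by
  have h := ev_of_zchk hx hx1 check_eta
  rw [ev_padd, ev_padd, ev_padd, ev_fold hx, ev_pmul, ev_E2 hx, ev_psmul] at h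
  simp only [ev] at h
  push_cast at h
  linear_combination h

lemma ev2_Pz {x : A} (t : A) (hx : x ^ 43 = 1) :
    ev2 x t Pz = (t - (x ^ 3 + x ^ 40)) * ((t - (x ^ 5 + x ^ 38)) * ((t - (x ^ 6 + x ^ 37)) *
      ((t - (x ^ 10 + x ^ 33)) * ((t - (x ^ 12 + x ^ 31)) * ((t - (x ^ 19 + x ^ 24)) *
        (t - (x ^ 20 + x ^ 23))))))) := by
  rw [Pz, ev2_stepP t hx, ev2_stepP t hx, ev2_stepP t hx, ev2_stepP t hx, ev2_stepP t hx,
    ev2_stepP t hx, ev2_stepP t hx]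
  simp only [ev2, ev]
  push_cast
  ring

lemma ev_lst {x : A} (hx : x ^ 43 = 1) (u : K3) : ev x (lst u) = kev (ev x E) u := by
  rw [lst, ev_padd, ev_padd, ev_psmul, ev_psmul, ev_E2 hx, kev]
  simp only [ev]
  ring

lemma ev2_of_chkR [IsDomain A] {x : A} (t : A) (hx : x ^ 43 = 1) (hx1 : x ≠ 1) :
    ∀ (P : List (List ℤ)) (U : List K3), chkR P U = true → 2 * ev2 x t P = kpev (ev x E) t U
  | [], [], _ => by simp [ev2, kpev]
  | p :: P, u :: U, h => by
    rw [chkR, Bool.and_eq_true] at h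
    have h1 := ev_of_zchk hx hx1 h.1
    rw [ev_psub, ev_psmul, ev_lst hx] at h1
    push_cast at h1
    rw [ev2, kpev, ← ev2_of_chkR t hx hx1 P U h.2]
    linear_combination h1
  | [], _ :: _, h => by simp [chkR] at h
  | _ :: _, [], h => by simp [chkR] at h

end

/-- `2 cos (2 π j / 43)` -/
noncomputable def tj (j : ℕ) : ℝ := 2 * Real.cos (2 * Real.pi * j / 43)

/-- the period `η` -/
noncomputable def eta : ℝ := tj 3 + tj 5 + tj 6 + tj 10 + tj 12 + tj 19 + tj 20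

noncomputable def zeta : ℂ := cexp (2 * Real.pi * I / 43)

lemma zeta_pow (j : ℕ) : zeta ^ j = cexp (2 * Real.pi * I * j / 43) := by
  rw [zeta, ← Complex.exp_nat_mul]
  congr 1
  ring

lemma zeta_pow_43 : zeta ^ 43 = 1 := by
  rw [zeta_pow, Complex.exp_eq_one_iff]
  exact ⟨1, by push_cast; ring⟩

lemma zeta_ne_one : zeta ≠ 1 := by
  have h := Complex.isPrimitiveRoot_exp 43 (by norm_num)
  have h2 : zeta = cexp (2 * Real.pi * I / (43 : ℕ)) := by
    rw [zeta]; norm_num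
  rw [h2]
  exact h.ne_one (by norm_num)

lemma zeta_add (j : ℕ) (hj : j ≤ 43) : zeta ^ j + zeta ^ (43 - j) = (tj j : ℂ) := by
  have h1 : zeta ^ (43 - j) = cexp (-(2 * Real.pi * I * j / 43)) := by
    have h2 : zeta ^ (43 - j) * zeta ^ j = 1 := by
      rw [← pow_add, Nat.sub_add_cancel hj, zeta_pow_43]
    rw [zeta_pow j] at h2
    rw [Complex.exp_neg]
    exact eq_inv_of_mul_eq_one_left h2
  rw [h1, zeta_pow, tj]
  push_cast
  rw [Complex.cos]
  have e1 : 2 * (Real.pi : ℂ) * I * j / 43 = 2 * Real.pi * j / 43 * I := by ring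
  have e2 : -(2 * (Real.pi : ℂ) * I * j / 43) = -(2 * Real.pi * j / 43) * I := by ring
  rw [e2, e1]
  ring

lemma ev_zeta_E : ev zeta E = (eta : ℂ) := by
  rw [ev_E, eta]
  push_cast
  rw [← zeta_add 3 (by norm_num), ← zeta_add 5 (by norm_num), ← zeta_add 6 (by norm_num),
    ← zeta_add 10 (by norm_num), ← zeta_add 12 (by norm_num), ← zeta_add 19 (by norm_num),
    ← zeta_add 20 (by norm_num)]
  norm_num
  ring

lemma eta_root : eta ^ 3 + eta ^ 2 - 14 * eta + 8 = 0 := by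
  have h := eta_cubic zeta_pow_43 zeta_ne_one
  rw [ev_zeta_E] at h
  exact_mod_cast h

lemma kev_ofReal (e : ℝ) (u : K3) : kev (e : ℂ) u = ((kev e u : ℝ) : ℂ) := by
  simp only [kev]; push_cast; rfl

lemma kpev_ofReal (e t : ℝ) (U : List K3) : kpev (e : ℂ) (t : ℂ) U = ((kpev e t U : ℝ) : ℂ) := by
  induction U with
  | nil => simp [kpev]
  | cons u U ih =>
    rw [kpev, kpev, ih, kev_ofReal]
    push_cast
    rfl

/-- The factor of degree seven. -/
theorem R_eq (t : ℝ) : kpev eta t Rz = 2 * ((t - tj 3) * ((t - tj 5) * ((t - tj 6) *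
    ((t - tj 10) * ((t - tj 12) * ((t - tj 19) * (t - tj 20))))))) := by
  have h1 := ev2_of_chkR (t : ℂ) zeta_pow_43 zeta_ne_one Pz Rz check_R
  rw [ev2_Pz _ zeta_pow_43, ev_zeta_E, kpev_ofReal] at h1
  have e3 := zeta_add 3 (by norm_num)
  have e5 := zeta_add 5 (by norm_num)
  have e6 := zeta_add 6 (by norm_num)
  have e10 := zeta_add 10 (by norm_num)
  have e12 := zeta_add 12 (by norm_num)
  have e19 := zeta_add 19 (by norm_num)
  have e20 := zeta_add 20 (by norm_num)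
  norm_num at e3 e5 e6 e10 e12 e19 e20
  rw [e3, e5, e6, e10, e12, e19, e20] at h1
  exact_mod_cast h1.symm

end Pool.Agent.Lib.MP_38b438_an.N5
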