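import Pool.Agent.Lib.MP_38b438_an.N5.Gauss

set_option autoImplicit false

/-!
# The pointwise inequality
-/

namespace Pool.Agent.Lib.MP_38b438_an.N5

open Real

lemma tj_le {j : ℕ} {y : ℝ} (h0 : 0 ≤ y) (h1 : 2 * π * j / 43 ≤ π) (h2 : y ≤ 2 * π * j / 43) :
    tj j ≤ 2 * cos y := by
  rw [tj]
  have := Real.cos_le_cos_of_nonneg_of_le_pi h0 h1 h2
  linarith

lemma le_tj {j : ℕ} {y : ℝ} (h1 : y ≤ π) (h2 : 2 * π * j / 43 ≤ y) :
    2 * cos y ≤ tj j := by
  rw [tj]
  have := Real.cos_le_cos_of_nonneg_of_le_pi (by positivity) h1 h2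
  linarith

lemma cos_five_pi_div_six : cos (5 * π / 6) = -(√3 / 2) := by
  have : 5 * π / 6 = π - π / 6 := by ring
  rw [this, Real.cos_pi_sub, Real.cos_pi_div_six]

lemma cos_two_pi_div_three' : cos (2 * π / 3) = -(1 / 2) := by
  have : 2 * π / 3 = π - π / 3 := by ring
  rw [this, Real.cos_pi_sub, Real.cos_pi_div_three]

lemma eta_lt : eta < 2.69 := by
  have hpi := Real.pi_pos
  have h3 : tj 3 ≤ 2 := by rw [tj]; linarith [Real.cos_le_one (2 * π * (3 : ℕ) / 43)]
  have h5 : tj 5 ≤ 2 * cos (π / 6) := tj_le (by positivity) (by push_cast; linarith) (by push_cast; linarith)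
  have h6 : tj 6 ≤ 2 * cos (π / 4) := tj_le (by positivity) (by push_cast; linarith) (by push_cast; linarith)
  have h10 : tj 10 ≤ 2 * cos (π / 3) := tj_le (by positivity) (by push_cast; linarith) (by push_cast; linarith)
  have h12 : tj 12 ≤ 2 * cos (π / 2) := tj_le (by positivity) (by push_cast; linarith) (by push_cast; linarith)
  have h19 : tj 19 ≤ 2 * cos (5 * π / 6) := tj_le (by positivity) (by push_cast; linarith) (by push_cast; linarith)
  have h20 : tj 20 ≤ 2 * cos (5 * π / 6) := tj_le (by positivity) (by push_cast; linarith) (by push_cast; linarith)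
  rw [cos_pi_div_six] at h5
  rw [cos_pi_div_four] at h6
  rw [cos_pi_div_three] at h10
  rw [cos_pi_div_two] at h12
  rw [cos_five_pi_div_six] at h19 h20
  have s3 : 1.73 < √3 := by
    rw [Real.lt_sqrt (by norm_num)]; norm_num
  have s2 : √2 < 1.415 := by
    rw [Real.sqrt_lt' (by norm_num)]; norm_num
  rw [eta]
  linarith

lemma lt_eta : -0.87 < eta := by
  have hpi := Real.pi_pos
  have h3 : 2 * cos (π / 6) ≤ tj 3 := le_tj (by linarith) (by push_cast; linarith)
  have h5 : 2 * cos (π / 4) ≤ tj 5 := le_tj (by linarith) (by push_cast; linarith)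
  have h6 : 2 * cos (π / 3) ≤ tj 6 := le_tj (by linarith) (by push_cast; linarith)
  have h10 : 2 * cos (π / 2) ≤ tj 10 := le_tj (by linarith) (by push_cast; linarith)
  have h12 : 2 * cos (2 * π / 3) ≤ tj 12 := le_tj (by linarith) (by push_cast; linarith)
  have h19 : -2 ≤ tj 19 := by rw [tj]; linarith [Real.neg_one_le_cos (2 * π * (19 : ℕ) / 43)]
  have h20 : -2 ≤ tj 20 := by rw [tj]; linarith [Real.neg_one_le_cos (2 * π * (20 : ℕ) / 43)]
  rw [cos_pi_div_six] at h3
  rw [cos_pi_div_four] at h5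
  rw [cos_pi_div_three] at h6
  rw [cos_pi_div_two] at h10
  rw [cos_two_pi_div_three'] at h12
  have s3 : 1.73 < √3 := by
    rw [Real.lt_sqrt (by norm_num)]; norm_num
  have s2 : 1.41 < √2 := by
    rw [Real.lt_sqrt (by norm_num)]; norm_num
  rw [eta]
  linarith

lemma Q_real : ((Q : ℤ) : ℝ) = 100000000000000000000 := by norm_num [Q]
lemma E0_real : ((E0 : ℤ) : ℝ) = 61507162581156506493 := by norm_num [E0]

lemma eta_lo : (E0 : ℝ) ≤ Q * eta := by
  by_contra hcon
  rw [not_le] at hcon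
  have hr := eta_root
  have h1 := lt_eta
  rw [Q_real, E0_real] at hcon
  obtain ⟨e, he⟩ : ∃ e : ℝ, e = 61507162581156506493 / 100000000000000000000 := ⟨_, rfl⟩
  have hlt : eta < e := by rw [he]; linarith
  have hpe : 0 < e ^ 3 + e ^ 2 - 14 * e + 8 := by rw [he]; norm_num
  have he1 : e < 0.62 := by rw [he]; norm_num
  have he0 : 0.61 < e := by rw [he]; norm_num
  have h2 : eta ^ 2 + eta * e + e ^ 2 + eta + e - 14 < 0 := by nlinarith
  have h3 : (e - eta) * (eta ^ 2 + eta * e + e ^ 2 + eta + e - 14) < 0 :=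
    mul_neg_of_pos_of_neg (by linarith) h2
  nlinarith

lemma eta_hi : Q * eta ≤ (E0 : ℝ) + 1 := by
  by_contra hcon
  rw [not_le] at hcon
  have hr := eta_root
  have h1 := eta_lt
  rw [Q_real, E0_real] at hcon
  obtain ⟨e, he⟩ : ∃ e : ℝ, e = 61507162581156506494 / 100000000000000000000 := ⟨_, rfl⟩
  have hlt : e < eta := by rw [he]; linarith
  have hpe : e ^ 3 + e ^ 2 - 14 * e + 8 < 0 := by rw [he]; norm_num
  have he1 : e < 0.62 := by rw [he]; norm_num
  have he0 : 0.61 < e := by rw [he]; norm_num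
  have h2 : eta ^ 2 + eta * e + e ^ 2 + eta + e - 14 < 0 := by nlinarith
  have h3 : (eta - e) * (eta ^ 2 + eta * e + e ^ 2 + eta + e - 14) < 0 :=
    mul_neg_of_pos_of_neg (by linarith) h2
  nlinarith

lemma approx_bound (u : K3) :
    |(Q : ℝ) ^ 2 * kev eta u - (approx u : ℝ)| ≤ (slop u : ℝ) := by
  have h1 := eta_lo
  have h2 := eta_hi
  have hQ := Q_real
  have hE := E0_real
  have hsl : (slop u : ℝ) = (|(u.2.1 : ℝ)| + 2 * |(u.2.2 : ℝ)|) * Q := by
    rw [slop]; push_cast; ring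
  have happ : (approx u : ℝ) = u.1 * Q ^ 2 + u.2.1 * E0 * Q + u.2.2 * E0 ^ 2 := by
    rw [approx]; push_cast; ring
  have e : (Q : ℝ) ^ 2 * kev eta u - (approx u : ℝ)
      = u.2.1 * (Q * (Q * eta - E0)) + u.2.2 * ((Q * eta - E0) * (Q * eta + E0)) := by
    rw [happ, kev]; ring
  rw [e, hsl]
  have h3 : |(u.2.1 : ℝ) * (Q * (Q * eta - E0))| ≤ |(u.2.1 : ℝ)| * Q := by
    rw [abs_mul]
    apply mul_le_mul_of_nonneg_left _ (abs_nonneg _)
    rw [abs_of_nonneg (mul_nonneg (by rw [hQ]; norm_num) (by linarith))]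
    rw [hQ] at h1 h2 ⊢
    nlinarith
  have h4 : |(u.2.2 : ℝ) * ((Q * eta - E0) * (Q * eta + E0))| ≤ |(u.2.2 : ℝ)| * (2 * Q) := by
    rw [abs_mul]
    apply mul_le_mul_of_nonneg_left _ (abs_nonneg _)
    rw [hE] at h1 h2 ⊢
    rw [abs_of_nonneg (mul_nonneg (by linarith) (by linarith))]
    rw [hQ] at h1 h2 ⊢
    nlinarith
  calc _ ≤ |(u.2.1 : ℝ) * (Q * (Q * eta - E0))|
        + |(u.2.2 : ℝ) * ((Q * eta - E0) * (Q * eta + E0))| := abs_add_le _ _
    _ ≤ |(u.2.1 : ℝ)| * Q + |(u.2.2 : ℝ)| * (2 * Q) := add_le_add h3 h4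
    _ = _ := by ring

lemma tsum_kpadd (e α φ : ℝ) (p q : List K3) :
    tsum e α φ (kpadd p q) = tsum e α φ p + tsum e α φ q := by
  induction p generalizing q α with
  | nil => simp [kpadd, tsum]
  | cons a p ih =>
    cases q with
    | nil => simp [kpadd, tsum]
    | cons b q =>
      simp only [kpadd, tsum, ih, kev_kadd]
      ring

lemma tsum_kpz (e α φ : ℝ) (c : ℤ) (p : List K3) :
    tsum e α φ (kpz c p) = c * tsum e α φ p := by
  induction p generalizing α with
  | nil => simp [kpz, tsum]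
  | cons a p ih =>
    have : kpz c (a :: p) = ksm c a :: kpz c p := rfl
    rw [this]
    simp only [tsum, ih, kev_ksm]
    ring

lemma Qpos : (0 : ℝ) < (Q : ℝ) ^ 2 := by rw [Q_real]; norm_num

lemma abs_kev_le (u : K3) : (Q : ℝ) ^ 2 * |kev eta u| ≤ |(approx u : ℝ)| + slop u := by
  have h := approx_bound u
  have h1 : (Q : ℝ) ^ 2 * |kev eta u| = |(Q : ℝ) ^ 2 * kev eta u| := by
    rw [abs_mul, abs_of_pos Qpos]
  rw [h1]
  have h2 : (Q : ℝ) ^ 2 * kev eta u
      = ((Q : ℝ) ^ 2 * kev eta u - (approx u : ℝ)) + (approx u : ℝ) := by ring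
  rw [h2]
  have := abs_add_le ((Q : ℝ) ^ 2 * kev eta u - (approx u : ℝ)) (approx u : ℝ)
  linarith

lemma abs_tsum_le (α φ : ℝ) (l : List K3) :
    (Q : ℝ) ^ 2 * |tsum eta α φ l| ≤ 2 * (errsum l : ℝ) := by
  induction l generalizing α with
  | nil => simp [tsum, errsum]
  | cons u l ih =>
    have h1 := ih (α + φ)
    have h2 := abs_kev_le u
    have h3 : |kev eta u * (2 * cos α)| ≤ 2 * |kev eta u| := by
      rw [abs_mul, abs_mul]
      have := Real.abs_cos_le_one α
      have h0 := abs_nonneg (kev eta u)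
      rw [abs_of_pos (by norm_num : (0 : ℝ) < 2)]
      nlinarith
    have h4 := abs_add_le (kev eta u * (2 * cos α)) (tsum eta (α + φ) φ l)
    rw [tsum, errsum]
    push_cast
    have hQ := Qpos
    calc (Q : ℝ) ^ 2 * |kev eta u * (2 * cos α) + tsum eta (α + φ) φ l|
        ≤ (Q : ℝ) ^ 2 * (2 * |kev eta u| + |tsum eta (α + φ) φ l|) := by
          apply mul_le_mul_of_nonneg_left _ hQ.le
          linarith
      _ = 2 * ((Q : ℝ) ^ 2 * |kev eta u|) + (Q : ℝ) ^ 2 * |tsum eta (α + φ) φ l| := by ring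
      _ ≤ _ := by linarith

lemma ev_X (t : ℝ) : ev t [0, 1] = t := by simp [ev]

lemma kpev_sigma (θ : ℝ) (gs : List K3) :
    kpev eta (2 * cos θ) (sigma gs) = tsum eta 0 θ gs := by
  apply kpev_combo
  · rw [ev_X]
  · simp [ev]
  · rw [ev_X, zero_sub, Real.cos_neg]

lemma kpev_sigma2 (θ : ℝ) (gs : List K3) :
    kpev eta (2 * cos θ) (sigma2 gs) = tsum eta 0 (2 * θ) gs := by
  have h : ev (2 * cos θ) [-2, 0, 1] = 2 * cos (2 * θ) := by
    rw [Real.cos_two_mul]
    simp only [ev]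
    push_cast
    ring
  apply kpev_combo
  · exact h
  · simp [ev]
  · rw [h, zero_sub, Real.cos_neg]

lemma tsum_hs_pos (θ : ℝ) : 0 < tsum eta 0 θ hs := by
  -- the sum of squares
  have hsos : 0 ≤ tsum eta 0 θ (zl rs) := by
    rw [← kpev_sigma, kpev_of_keq _ _ check_sos, kpev_kpadd, kpev_kpmul _ eta_root,
      kpev_kpmul _ eta_root, kpev_kpmul _ eta_root]
    have h1 : 0 ≤ kpev eta (2 * cos θ) [(4, 0, 0), (0, 0, 0), (-1, 0, 0)] := by
      have h2 : kpev eta (2 * cos θ) [(4, 0, 0), (0, 0, 0), (-1, 0, 0)]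
          = 4 * (1 - cos θ ^ 2) := by
        simp only [kpev, kev]; push_cast; ring
      rw [h2]
      have := Real.cos_sq_le_one θ
      linarith
    have h3 := mul_self_nonneg (kpev eta (2 * cos θ) (sigma (zl As)))
    have h4 := mul_self_nonneg (kpev eta (2 * cos θ) (combo [0, 1] [1] [] (zl Bs)))
    have h5 := mul_nonneg h1 h4
    linarith
  have hsum : tsum eta 0 θ ds = 4 * tsum eta 0 θ hs - tsum eta 0 θ (zl rs) := by
    rw [ds, tsum_kpadd, tsum_kpz, tsum_kpz]
    push_cast; ring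
  have hds : 0 < tsum eta 0 θ ds := by
    have hcb := check_bound
    obtain ⟨u, l, hul⟩ : ∃ u l, ds = u :: l := by
      rcases hd : ds with _ | ⟨u, l⟩
      · exfalso
        have : ds ≠ [] := by decide +kernel
        exact this hd
      · exact ⟨u, l, rfl⟩
    rw [hul] at hcb ⊢
    simp only [List.tail_cons, List.headD_cons] at hcb
    have hcb' : (errsum l : ℝ) + slop u < approx u := by exact_mod_cast hcb
    have h1 := approx_bound u
    have h2 := abs_tsum_le (0 + θ) θ l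
    have h3 := (abs_le.mp h1).1
    have h4 := neg_abs_le (tsum eta (0 + θ) θ l)
    rw [tsum, Real.cos_zero, mul_one]
    have hQ := Qpos
    by_contra hcon
    rw [not_lt] at hcon
    have h5 : (Q : ℝ) ^ 2 * (kev eta u * 2 + tsum eta (0 + θ) θ l) ≤ 0 :=
      mul_nonpos_of_nonneg_of_nonpos hQ.le hcon
    have h6 : (Q : ℝ) ^ 2 * (-|tsum eta (0 + θ) θ l|) ≤ (Q : ℝ) ^ 2 * tsum eta (0 + θ) θ l :=
      mul_le_mul_of_nonneg_left h4 hQ.le
    nlinarith
  linarith

/-- The main identity. -/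
theorem main_identity (θ : ℝ) :
    4 * (tsum eta 0 θ bs - tsum eta 0 θ fs - tsum eta 0 θ cs + tsum eta 0 (2 * θ) cs)
      = kpev eta (2 * cos θ) Rz ^ 2 * tsum eta 0 θ hs := by
  have h := kpev_of_keq eta (2 * cos θ) check_main
  rw [kpev_kpz, kpev_kpadd, kpev_kpadd, kpev_kpadd, kpev_kpz, kpev_kpz, kpev_sigma, kpev_sigma,
    kpev_sigma, kpev_sigma2, kpev_kpmul _ eta_root, kpev_kpmul _ eta_root, kpev_sigma] at h
  push_cast at h
  linear_combination h

end Pool.Agent.Lib.MP_38b438_an.N5
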