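import Pool.Agent.Lib.MP_38b438_an.N5.CircleFns
import Pool.Agent.Lib.MP_38b438_an.N5.Flower

set_option autoImplicit false

/-!
# The maximizing measure
-/

namespace Pool.Agent.Lib.MP_38b438_an.N5

open MeasureTheory
open scoped ENNReal

lemma measurable_dbl : Measurable dbl := continuous_dbl.measurable

lemma integrable_of_continuous {f : UnitAddCircle → ℝ} (hf : Continuous f)
    (ν : Measure UnitAddCircle) [IsFiniteMeasure ν] : Integrable f ν :=
  hf.integrable_of_hasCompactSupport (HasCompactSupport.of_compactSpace f)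

/-- The basic formula for the integral of `F`. -/
lemma integral_F (ν : Measure UnitAddCircle) (hν : IsInvariantProb ν) :
    ∫ x, F x ∂ν = B - ∫ x, gC x ∂ν := by
  obtain ⟨hp, hm⟩ := hν
  have h1 : ∫ x, Psi (dbl x) ∂ν = ∫ x, Psi x ∂ν := by
    have h2 := integral_map (μ := ν) measurable_dbl.aemeasurable
      (f := Psi) continuous_Psi.aestronglyMeasurable
    rw [hm] at h2
    exact h2.symm
  have iF := integrable_of_continuous continuous_F ν
  have iP := integrable_of_continuous continuous_Psi ν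
  have iPd := integrable_of_continuous (continuous_Psi.comp continuous_dbl) ν
  have h3 : ∫ x, gC x ∂ν = ∫ x, (B - F x - Psi x + Psi (dbl x)) ∂ν :=
    integral_congr_ae (Filter.Eventually.of_forall fun x => (deficit x).symm)
  have iB : Integrable (fun _ : UnitAddCircle => B) ν := integrable_const B
  have h4 : ∫ x, (B - F x - Psi x + Psi (dbl x)) ∂ν
      = B - ∫ x, F x ∂ν - ∫ x, Psi x ∂ν + ∫ x, Psi (dbl x) ∂ν := by
    rw [integral_add (f := fun x => B - F x - Psi x) (g := fun x => Psi (dbl x))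
      ((iB.sub iF).sub iP) iPd,
      integral_sub (f := fun x => B - F x) (g := fun x => Psi x) (iB.sub iF) iP,
      integral_sub (f := fun _ => B) (g := fun x => F x) iB iF, integral_const]
    simp
  rw [h3, h4, h1]
  ring

/-- The measure equidistributed on the orbit of `3 / 43`. -/
noncomputable def mu0 : Measure UnitAddCircle :=
  (14 : ℝ≥0∞)⁻¹ • ∑ r ∈ Kidx, Measure.dirac (pt r)

lemma mu0_prob : IsProbabilityMeasure mu0 := by
  constructor
  rw [mu0, Measure.smul_apply, Measure.finsetSum_apply]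
  simp only [measure_univ, Finset.sum_const, smul_eq_mul]
  have : Kidx.card = 14 := by decide
  rw [this, nsmul_eq_mul, mul_one]
  exact ENNReal.inv_mul_cancel (by norm_num) (by norm_num)

lemma mu0_map : mu0.map dbl = mu0 := by
  rw [mu0, Measure.map_smul, Measure.map_finset_sum measurable_dbl.aemeasurable]
  congr 1
  have h1 : ∀ r ∈ Kidx, (Measure.dirac (pt r)).map dbl = Measure.dirac (pt (2 * r % 43)) := by
    intro r _
    rw [Measure.map_dirac' measurable_dbl, dbl_pt]
  rw [Finset.sum_congr rfl h1]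
  have h2 : Kidx.image (fun r => 2 * r % 43) = Kidx := by decide
  conv_rhs => rw [← h2]
  rw [Finset.sum_image]
  intro a ha b hb hab
  have : ∀ a ∈ Kidx, ∀ b ∈ Kidx, 2 * a % 43 = 2 * b % 43 → a = b := by decide
  exact this a ha b hb hab

lemma mu0_inv : IsInvariantProb mu0 := ⟨mu0_prob, mu0_map⟩

lemma integral_gC_mu0 : ∫ x, gC x ∂mu0 = 0 := by
  rw [mu0, integral_smul_measure, integral_finsetSum_measure]
  · have : ∀ r ∈ Kidx, ∫ x, gC x ∂(Measure.dirac (pt r)) = 0 := by
      intro r hr
      rw [integral_dirac, gC_pt hr]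
    rw [Finset.sum_congr rfl this]
    simp
  · intro r _
    exact integrable_of_continuous continuous_gC _

theorem mu0_maximizing : IsMaximizing F mu0 := by
  refine ⟨mu0_inv, fun ν hν => ?_⟩
  rw [integral_F ν hν, integral_F mu0 mu0_inv, integral_gC_mu0]
  have : 0 ≤ ∫ x, gC x ∂ν := integral_nonneg gC_nonneg
  linarith

/-- A maximizing measure is carried by the orbit. -/
lemma ae_mem_of_maximizing {ν : Measure UnitAddCircle} (hν : IsMaximizing F ν) :
    ∀ᵐ x ∂ν, ∃ r ∈ Kidx, x = pt r := by
  obtain ⟨hinv, hmax⟩ := hν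
  have h1 := hmax mu0 mu0_inv
  rw [integral_F ν hinv, integral_F mu0 mu0_inv, integral_gC_mu0] at h1
  have hp := hinv.1
  have h2 : ∫ x, gC x ∂ν = 0 := by
    have : 0 ≤ ∫ x, gC x ∂ν := integral_nonneg gC_nonneg
    linarith
  have h3 := (integral_eq_zero_iff_of_nonneg gC_nonneg
    (integrable_of_continuous continuous_gC ν)).mp h2
  filter_upwards [h3] with x hx
  exact mem_of_gC_eq_zero hx

theorem unique_maximizing {ν : Measure UnitAddCircle} (hν : IsMaximizing F ν) : ν = mu0 := by
  have hae := ae_mem_of_maximizing hν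
  obtain ⟨⟨hp, hm⟩, _⟩ := hν
  -- the orbit as a union of points
  set K : Set UnitAddCircle := ⋃ r ∈ Kidx, {pt r} with hK
  have hmem : ∀ᵐ x ∂ν, x ∈ K := by
    filter_upwards [hae] with x hx
    obtain ⟨r, hr, rfl⟩ := hx
    simp only [hK, Set.mem_iUnion, Set.mem_singleton_iff]
    exact ⟨r, hr, rfl⟩
  have hlt : ∀ r ∈ Kidx, r < 43 := by decide
  have hdisj : (Kidx : Set ℕ).Pairwise (Function.onFun Disjoint fun r => ({pt r} : Set UnitAddCircle)) := by
    intro a ha b hb hab
    rw [Function.onFun, Set.disjoint_singleton]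
    intro h
    exact hab (pt_injOn (hlt a ha) (hlt b hb) h)
  have hsum : ν = ∑ r ∈ Kidx, ν {pt r} • Measure.dirac (pt r) := by
    have h1 : ν.restrict K = ν := Measure.restrict_eq_self_of_ae_mem hmem
    have h2 := Measure.restrict_biUnion_finset (μ := ν) hdisj
      (fun r => measurableSet_singleton (pt r))
    rw [← hK, h1] at h2
    conv_lhs => rw [h2]
    rw [Measure.sum_fintype]
    rw [Finset.sum_coe_sort Kidx (fun r => ν.restrict {pt r})]
    refine Finset.sum_congr rfl fun r _ => ?_
    rw [Measure.restrict_singleton]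
  -- invariance of the atoms
  have hstep : ∀ r ∈ Kidx, ν {pt (2 * r % 43)} = ν {pt r} := by
    intro r hr
    have h1 : ν {pt (2 * r % 43)} = ν (dbl ⁻¹' {pt (2 * r % 43)}) := by
      conv_lhs => rw [← hm]
      rw [Measure.map_apply measurable_dbl (measurableSet_singleton _)]
    rw [h1]
    apply measure_congr
    filter_upwards [hae] with x hx
    obtain ⟨s, hs, rfl⟩ := hx
    have h2 : ∀ a ∈ Kidx, ∀ b ∈ Kidx, 2 * a % 43 = 2 * b % 43 → a = b := by decide
    have h3 : (pt s ∈ dbl ⁻¹' {pt (2 * r % 43)}) ↔ (pt s ∈ ({pt r} : Set UnitAddCircle)) := by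
      rw [Set.mem_preimage, Set.mem_singleton_iff, Set.mem_singleton_iff, dbl_pt]
      constructor
      · intro h
        have h4 := pt_injOn (Nat.mod_lt _ (by norm_num)) (Nat.mod_lt _ (by norm_num)) h
        rw [h2 s hs r hr h4]
      · intro h
        have h4 := pt_injOn (hlt s hs) (hlt r hr) h
        rw [h4]
    exact propext h3
  have hall : ∀ r ∈ Kidx, ν {pt r} = ν {pt 3} := by
    have e6 : ν {pt 6} = ν {pt 3} := hstep 3 (by decide)
    have e12 : ν {pt 12} = ν {pt 6} := hstep 6 (by decide)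
    have e24 : ν {pt 24} = ν {pt 12} := hstep 12 (by decide)
    have e5 : ν {pt 5} = ν {pt 24} := hstep 24 (by decide)
    have e10 : ν {pt 10} = ν {pt 5} := hstep 5 (by decide)
    have e20 : ν {pt 20} = ν {pt 10} := hstep 10 (by decide)
    have e40 : ν {pt 40} = ν {pt 20} := hstep 20 (by decide)
    have e37 : ν {pt 37} = ν {pt 40} := hstep 40 (by decide)
    have e31 : ν {pt 31} = ν {pt 37} := hstep 37 (by decide)
    have e19 : ν {pt 19} = ν {pt 31} := hstep 31 (by decide)
    have e38 : ν {pt 38} = ν {pt 19} := hstep 19 (by decide)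
    have e33 : ν {pt 33} = ν {pt 38} := hstep 38 (by decide)
    have e23 : ν {pt 23} = ν {pt 33} := hstep 33 (by decide)
    intro r hr
    simp only [Kidx, Finset.mem_insert, Finset.mem_singleton] at hr
    rcases hr with rfl | rfl | rfl | rfl | rfl | rfl | rfl | rfl | rfl | rfl | rfl | rfl | rfl | rfl
    all_goals simp only [e23, e33, e38, e19, e31, e37, e40, e20, e10, e5, e24, e12, e6]
  have hsum2 : ν = ν {pt 3} • ∑ r ∈ Kidx, Measure.dirac (pt r) := by
    conv_lhs => rw [hsum]
    rw [Finset.smul_sum]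
    exact Finset.sum_congr rfl fun r hr => by rw [hall r hr]
  have hval : ν {pt 3} = (14 : ℝ≥0∞)⁻¹ := by
    have h1 : ν Set.univ = 1 := measure_univ
    have h2 : ν Set.univ = ν {pt 3} * 14 := by
      conv_lhs => rw [hsum2]
      rw [Measure.smul_apply, Measure.finsetSum_apply]
      simp only [measure_univ, Finset.sum_const, smul_eq_mul]
      have : Kidx.card = 14 := by decide
      rw [this, nsmul_eq_mul, mul_one]
      norm_num
    rw [h1] at h2
    exact ENNReal.eq_inv_of_mul_eq_one_left h2.symm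
  rw [hsum2, hval, mu0]

/-- The points of the orbit are in the support. -/
lemma pt_mem_support {r : ℕ} (hr : r ∈ Kidx) : pt r ∈ mu0.support := by
  rw [Measure.mem_support_iff_forall]
  intro U hU
  have hx : pt r ∈ U := mem_of_mem_nhds hU
  have h1 : (14 : ℝ≥0∞)⁻¹ ≤ mu0 U := by
    have h2 : (14 : ℝ≥0∞)⁻¹ ≤ mu0 {pt r} := by
      rw [mu0, Measure.smul_apply, Measure.finsetSum_apply, smul_eq_mul]
      have h3 : (1 : ℝ≥0∞) ≤ ∑ s ∈ Kidx, (Measure.dirac (pt s)) {pt r} := by
        have h4 : (Measure.dirac (pt r)) {pt r} = 1 := by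
          rw [Measure.dirac_apply]; simp
        rw [← h4]
        exact Finset.single_le_sum (f := fun s => (Measure.dirac (pt s)) {pt r})
          (fun _ _ => zero_le) hr
      calc (14 : ℝ≥0∞)⁻¹ = (14 : ℝ≥0∞)⁻¹ * 1 := (mul_one _).symm
        _ ≤ _ := by gcongr
    exact h2.trans (measure_mono (Set.singleton_subset_iff.mpr hx))
  exact lt_of_lt_of_le (ENNReal.inv_pos.mpr (by norm_num)) h1

/-- Every flower containing the support has at least seven petals. -/
theorem petals_bound {X : Set UnitAddCircle} (hX : IsFlower X) (hs : mu0.support ⊆ X) :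
    7 ≤ petals X := by
  have hK : ∀ r ∈ Kidx, pt r ∈ X := fun r hr => hs (pt_mem_support hr)
  have h1 : ∀ i : Fin 7, ∃ r ∈ Kidx, (((num i : ℝ) / 86 : ℝ) : UnitAddCircle) = pt r := by
    intro i
    have hex : ∀ i : Fin 7, ∃ r ∈ Kidx, num i = 2 * r := by decide
    obtain ⟨r, hr, h⟩ := hex i
    refine ⟨r, hr, ?_⟩
    rw [pt, h]
    congr 1
    push_cast; ring
  have h2 : ∀ i : Fin 7, ∃ r ∈ Kidx, (((sep i : ℝ) / 86 : ℝ) : UnitAddCircle)
      = pt r + ((1 / 2 : ℝ) : UnitAddCircle) := by
    intro i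
    have hex : ∀ i : Fin 7, ∃ r ∈ Kidx, sep i = 2 * r + 43 ∨ sep i + 43 = 2 * r := by decide
    obtain ⟨r, hr, h⟩ := hex i
    refine ⟨r, hr, ?_⟩
    rw [pt, ← AddCircle.coe_add]
    rcases h with h | h
    · rw [h]
      congr 1
      push_cast; ring
    · have h3 : (r : ℝ) / 43 + 1 / 2 = (sep i : ℝ) / 86 + 1 := by
        have : (sep i : ℝ) + 43 = 2 * r := by exact_mod_cast h
        linarith
      rw [h3]
      exact (AddCircle.coe_add_period (1 : ℝ) _).symm
  apply seven_le_petals hX
  · intro i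
    obtain ⟨r, hr, h⟩ := h1 i
    rw [h]
    exact hK r hr
  · intro i
    obtain ⟨r, hr, h⟩ := h2 i
    rw [h]
    exact ⟨pt r, hK r hr, rfl⟩

end Pool.Agent.Lib.MP_38b438_an.N5
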