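import Mathlib

set_option autoImplicit false

/-!
# Computable polynomials with integer coefficients and with coefficients in a cubic ring
-/

namespace Pool.Agent.Lib.MP_38b438_an.N5

/-- A triple `(a, b, c)` stands for `a + b η + c η²`, where `η³ + η² - 14 η + 8 = 0`. -/
abbrev K3 := ℤ × ℤ × ℤ

section

variable {A : Type*} [CommRing A]

/-- Value at `x` of the polynomial with coefficient list `l`. -/
def ev (x : A) : List ℤ → A
  | [] => 0
  | c :: l => (c : A) + x * ev x l

def padd : List ℤ → List ℤ → List ℤ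
  | [], q => q
  | a :: p, [] => a :: p
  | a :: p, b :: q => (a + b) :: padd p q

def psmul (c : ℤ) (l : List ℤ) : List ℤ := l.map (fun a => c * a)

def pmul : List ℤ → List ℤ → List ℤ
  | [], _ => []
  | a :: p, q => padd (psmul a q) (0 :: pmul p q)

def psub (p q : List ℤ) : List ℤ := padd p (psmul (-1) q)

lemma ev_padd (x : A) (p q : List ℤ) : ev x (padd p q) = ev x p + ev x q := by
  induction p generalizing q with
  | nil => simp [padd, ev]
  | cons a p ih =>
    cases q with
    | nil => simp [padd, ev]
    | cons b q =>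
      simp only [padd, ev, ih]
      push_cast
      ring

lemma ev_psmul (x : A) (c : ℤ) (p : List ℤ) : ev x (psmul c p) = c * ev x p := by
  induction p with
  | nil => simp [psmul, ev]
  | cons a p ih =>
    have : psmul c (a :: p) = (c * a) :: psmul c p := rfl
    rw [this]
    simp only [ev, ih]
    push_cast
    ring

lemma ev_pmul (x : A) (p q : List ℤ) : ev x (pmul p q) = ev x p * ev x q := by
  induction p with
  | nil => simp [pmul, ev]
  | cons a p ih =>
    simp only [pmul, ev_padd, ev_psmul, ev, ih]
    push_cast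
    ring

lemma ev_psub (x : A) (p q : List ℤ) : ev x (psub p q) = ev x p - ev x q := by
  rw [psub, ev_padd, ev_psmul]
  push_cast
  ring

lemma ev_append (x : A) (p q : List ℤ) : ev x (p ++ q) = ev x p + x ^ p.length * ev x q := by
  induction p with
  | nil => simp [ev]
  | cons a p ih =>
    simp only [List.cons_append, ev, ih, List.length_cons, pow_succ]
    ring

lemma ev_replicate_zero (x : A) (n : ℕ) : ev x (List.replicate n 0) = 0 := by
  induction n with
  | zero => simp [ev]
  | succ n ih => simp [List.replicate_succ, ev, ih]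

lemma ev_replicate (x : A) (n : ℕ) (c : ℤ) :
    (x - 1) * ev x (List.replicate n c) = c * (x ^ n - 1) := by
  induction n with
  | zero => simp [ev]
  | succ n ih =>
    rw [List.replicate_succ, ev, mul_add, mul_left_comm, ih]
    ring

/-- Reduction modulo `x ^ 43 = 1`. -/
def fold : ℕ → List ℤ → List ℤ
  | 0, l => l
  | k + 1, l => if l.length ≤ 43 then l else padd (l.take 43) (fold k (l.drop 43))

lemma ev_fold {x : A} (hx : x ^ 43 = 1) (k : ℕ) (l : List ℤ) : ev x (fold k l) = ev x l := by
  induction k generalizing l with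
  | zero => rfl
  | succ k ih =>
    rw [fold]
    split_ifs with h
    · rfl
    · rw [ev_padd, ih]
      conv_rhs => rw [← List.take_append_drop 43 l, ev_append]
      rw [List.length_take, min_eq_left (by omega), hx, one_mul]

/-- Test for vanishing at every primitive 43rd root of unity. -/
def zchk (l : List ℤ) : Bool :=
  decide (fold 10 l = List.replicate 43 ((fold 10 l).headD 0))

lemma ev_of_zchk [IsDomain A] {x : A} (hx : x ^ 43 = 1) (hx1 : x ≠ 1) {l : List ℤ}
    (h : zchk l = true) : ev x l = 0 := by
  rw [zchk, decide_eq_true_eq] at h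
  rw [← ev_fold hx 10 l, h]
  have h1 := ev_replicate x 43 ((fold 10 l).headD 0)
  rw [hx, sub_self, mul_zero] at h1
  exact (mul_eq_zero.mp h1).resolve_left (sub_ne_zero.mpr hx1)

/-- Polynomials in `t` whose coefficients are polynomials in `x`. -/
def ev2 (x t : A) : List (List ℤ) → A
  | [] => 0
  | c :: l => ev x c + t * ev2 x t l

def lladd : List (List ℤ) → List (List ℤ) → List (List ℤ)
  | [], q => q
  | a :: p, [] => a :: p
  | a :: p, b :: q => padd a b :: lladd p q

lemma ev2_lladd (x t : A) (p q : List (List ℤ)) : ev2 x t (lladd p q) = ev2 x t p + ev2 x t q := by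
  induction p generalizing q with
  | nil => simp [lladd, ev2]
  | cons a p ih =>
    cases q with
    | nil => simp [lladd, ev2]
    | cons b q =>
      simp only [lladd, ev2, ih, ev_padd]
      ring

/-- `- x ^ j - x ^ (43 - j)` -/
def negmono (j : ℕ) : List ℤ :=
  padd (List.replicate j 0 ++ [-1]) (List.replicate (43 - j) 0 ++ [-1])

lemma ev_negmono (x : A) (j : ℕ) : ev x (negmono j) = -(x ^ j + x ^ (43 - j)) := by
  rw [negmono, ev_padd, ev_append, ev_append, ev_replicate_zero, ev_replicate_zero,
    List.length_replicate, List.length_replicate]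
  simp only [ev]
  push_cast
  ring

/-- Multiplication by `t - x ^ j - x ^ (43 - j)`. -/
def stepP (j : ℕ) (P : List (List ℤ)) : List (List ℤ) :=
  lladd ([] :: P) (P.map fun c => fold 3 (pmul (negmono j) c))

lemma ev2_map (x t : A) (hx : x ^ 43 = 1) (j : ℕ) (P : List (List ℤ)) :
    ev2 x t (P.map fun c => fold 3 (pmul (negmono j) c)) = -(x ^ j + x ^ (43 - j)) * ev2 x t P := by
  induction P with
  | nil => simp [ev2]
  | cons c P ih =>
    rw [List.map_cons, ev2, ev2, ih, ev_fold hx, ev_pmul, ev_negmono]
    ring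

lemma ev2_stepP {x : A} (t : A) (hx : x ^ 43 = 1) (j : ℕ) (P : List (List ℤ)) :
    ev2 x t (stepP j P) = (t - (x ^ j + x ^ (43 - j))) * ev2 x t P := by
  rw [stepP, ev2_lladd, ev2_map x t hx]
  simp only [ev2, ev]
  ring

/-! ### The cubic ring -/

def kadd (a b : K3) : K3 := (a.1 + b.1, a.2.1 + b.2.1, a.2.2 + b.2.2)

def ksm (c : ℤ) (a : K3) : K3 := (c * a.1, c * a.2.1, c * a.2.2)

def kmul (a b : K3) : K3 :=
  (a.1 * b.1 - 8 * (a.2.1 * b.2.2 + a.2.2 * b.2.1) + 8 * (a.2.2 * b.2.2),
    a.1 * b.2.1 + a.2.1 * b.1 + 14 * (a.2.1 * b.2.2 + a.2.2 * b.2.1) - 22 * (a.2.2 * b.2.2),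
    a.1 * b.2.2 + a.2.1 * b.2.1 + a.2.2 * b.1 - (a.2.1 * b.2.2 + a.2.2 * b.2.1)
      + 15 * (a.2.2 * b.2.2))

def kev (e : A) (a : K3) : A := a.1 + a.2.1 * e + a.2.2 * e ^ 2

lemma kev_kadd (e : A) (a b : K3) : kev e (kadd a b) = kev e a + kev e b := by
  simp only [kev, kadd]; push_cast; ring

lemma kev_ksm (e : A) (c : ℤ) (a : K3) : kev e (ksm c a) = c * kev e a := by
  simp only [kev, ksm]; push_cast; ring

lemma kev_kmul {e : A} (he : e ^ 3 + e ^ 2 - 14 * e + 8 = 0) (a b : K3) :
    kev e (kmul a b) = kev e a * kev e b := by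
  simp only [kev, kmul]
  push_cast
  linear_combination (-((a.2.1 : A) * b.2.2 + a.2.2 * b.2.1) - (a.2.2 : A) * b.2.2 * (e - 1)) * he

/-- Polynomials in `t` over the cubic ring. -/
def kpev (e t : A) : List K3 → A
  | [] => 0
  | c :: l => kev e c + t * kpev e t l

def kpadd : List K3 → List K3 → List K3
  | [], q => q
  | a :: p, [] => a :: p
  | a :: p, b :: q => kadd a b :: kpadd p q

def kpsmul (c : K3) (l : List K3) : List K3 := l.map (fun a => kmul c a)

def kpmul : List K3 → List K3 → List K3
  | [], _ => []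
  | a :: p, q => kpadd (kpsmul a q) ((0, 0, 0) :: kpmul p q)

def kpz (c : ℤ) (l : List K3) : List K3 := l.map (fun a => ksm c a)

lemma kpev_kpadd (e t : A) (p q : List K3) : kpev e t (kpadd p q) = kpev e t p + kpev e t q := by
  induction p generalizing q with
  | nil => simp [kpadd, kpev]
  | cons a p ih =>
    cases q with
    | nil => simp [kpadd, kpev]
    | cons b q =>
      simp only [kpadd, kpev, ih, kev_kadd]
      ring

lemma kpev_kpz (e t : A) (c : ℤ) (p : List K3) : kpev e t (kpz c p) = c * kpev e t p := by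
  induction p with
  | nil => simp [kpz, kpev]
  | cons a p ih =>
    have : kpz c (a :: p) = ksm c a :: kpz c p := rfl
    rw [this]
    simp only [kpev, ih, kev_ksm]
    ring

lemma kpev_kpsmul {e : A} (t : A) (he : e ^ 3 + e ^ 2 - 14 * e + 8 = 0) (c : K3) (p : List K3) :
    kpev e t (kpsmul c p) = kev e c * kpev e t p := by
  induction p with
  | nil => simp [kpsmul, kpev]
  | cons a p ih =>
    have : kpsmul c (a :: p) = kmul c a :: kpsmul c p := rfl
    rw [this]
    simp only [kpev, ih, kev_kmul he]
    ring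

lemma kpev_kpmul {e : A} (t : A) (he : e ^ 3 + e ^ 2 - 14 * e + 8 = 0) (p q : List K3) :
    kpev e t (kpmul p q) = kpev e t p * kpev e t q := by
  induction p with
  | nil => simp [kpmul, kpev]
  | cons a p ih =>
    have h0 : kev e ((0, 0, 0) : K3) = 0 := by simp [kev]
    simp only [kpmul, kpev_kpadd, kpev_kpsmul t he, kpev, ih, h0]
    ring

/-- All coefficients vanish. -/
def kz : List K3 → Bool
  | [] => true
  | a :: p => decide (a.1 = 0) && decide (a.2.1 = 0) && decide (a.2.2 = 0) && kz p

lemma kpev_of_kz (e t : A) {p : List K3} (h : kz p = true) : kpev e t p = 0 := by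
  induction p with
  | nil => rfl
  | cons a p ih =>
    simp only [kz, Bool.and_eq_true, decide_eq_true_eq] at h
    obtain ⟨⟨⟨h1, h2⟩, h3⟩, h4⟩ := h
    rw [kpev, ih h4, kev, h1, h2, h3]
    simp

/-- Equality test for polynomials over the cubic ring. -/
def keq (p q : List K3) : Bool := kz (kpadd p (kpz (-1) q))

lemma kpev_of_keq (e t : A) {p q : List K3} (h : keq p q = true) : kpev e t p = kpev e t q := by
  have h1 := kpev_of_kz e t h
  rw [kpev_kpadd, kpev_kpz] at h1
  push_cast at h1
  linear_combination h1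

lemma kpev_map_ksm (e t : A) (g : K3) (c : List ℤ) :
    kpev e t (c.map fun a => ksm a g) = kev e g * ev t c := by
  induction c with
  | nil => simp [kpev, ev]
  | cons a c ih =>
    simp only [List.map_cons, kpev, ev, ih, kev_ksm]
    ring

/-- Linear combination of the polynomials generated by the three term recursion with multiplier `m`
starting with `cur` (preceded by `prev`). -/
def combo (m : List ℤ) : List ℤ → List ℤ → List K3 → List K3
  | _, _, [] => []
  | cur, prev, g :: gs =>
    kpadd (cur.map fun a => ksm a g) (combo m (psub (pmul m cur) prev) cur gs)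

end

/-- `∑ₖ gₖ · 2 cos (α + k φ)` -/
noncomputable def tsum (e α φ : ℝ) : List K3 → ℝ
  | [] => 0
  | g :: gs => kev e g * (2 * Real.cos α) + tsum e (α + φ) φ gs

lemma kpev_combo (e t φ : ℝ) {m : List ℤ} (hm : ev t m = 2 * Real.cos φ) (gs : List K3) :
    ∀ {cur prev : List ℤ} {α : ℝ}, ev t cur = 2 * Real.cos α → ev t prev = 2 * Real.cos (α - φ) →
    kpev e t (combo m cur prev gs) = tsum e α φ gs := by
  induction gs with
  | nil => intro cur prev α _ _; simp [combo, kpev, tsum]
  | cons g gs ih =>
    intro cur prev α hc hp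
    rw [combo, kpev_kpadd, kpev_map_ksm, hc, tsum]
    congr 1
    apply ih
    · rw [ev_psub, ev_pmul, hm, hc, hp]
      have h1 := Real.cos_add α φ
      have h2 := Real.cos_sub α φ
      linear_combination (-2 : ℝ) * h1 - (2 : ℝ) * h2
    · rw [hc, add_sub_cancel_right]

end Pool.Agent.Lib.MP_38b438_an.N5
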